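import Pool.Agent.H46.CH.LT

/-!
# Rows NPA and NPB: the runs of the machine with counters and the two paths
-/

set_option autoImplicit false

namespace Pool.Agent.H37.CH

open Classical Pool.Agent.H46.CH
open Pool.Agent.H8.VR (C2)
open Pool.Agent.H8.JS (NTM Cfg Mv IsComp lang num)

theorem nx_st {M : NTM} {d : ℕ} (e e' : Ins M d) (h : Ins.nx e e') :
    (Ins.st e = true → Ins.st e' = true) ∧
    (Ins.st e = false → Ins.st e' = true → e = .begB) ∧ (e = .begB → Ins.st e' = true) := by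
  cases e <;> cases e' <;> simp_all [Ins.nx, Ins.st]

/-- the size of the two stages, if the first stage consists of the blocks up to `t` -/
theorem sz_eq {J : Type} [Fintype J] (M : AM J) (T : ℕ) (e : ℕ → M.I) (v : ℕ → J → ℕ) (t : ℕ)
    (ht : t + 1 < T) (h0 : ∀ i ≤ t, M.st (e i) = false) (h1 : ∀ i, t < i → i < T → M.st (e i) = true) :
    M.sz T e v false = (∑ i ∈ Finset.range t, (1 + ∑ j, v i j)) + (1 + ∑ j, v t j) ∧
    M.sz T e v true = (∑ i ∈ Finset.range (T - 1 - (t + 1)), (1 + ∑ j, v (t + 1 + i) j)) +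
      (1 + ∑ j, v (T - 1) j) + (1 + ∑ j, v T j) := by
  obtain ⟨r, rfl⟩ : ∃ r, T = t + 1 + r + 1 := ⟨T - (t + 2), by omega⟩
  have e1 : t + 1 + r + 1 - 1 - (t + 1) = r := by omega
  have e2 : t + 1 + r + 1 - 1 = t + 1 + r := by omega
  rw [e1, e2]
  have s0 : ∀ i ≤ t, M.stg (t + 1 + r + 1) e i = false := by
    intro i hi
    unfold AM.stg
    rw [if_pos (by omega)]
    exact h0 i hi
  have s1 : ∀ i, t < i → M.stg (t + 1 + r + 1) e i = true := by
    intro i hi
    unfold AM.stg
    split_ifs with h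
    · exact h1 i hi h
    · rfl
  have key : ∀ b, M.sz (t + 1 + r + 1) e v b =
      (∑ i ∈ Finset.range (t + 1), if b = false then 1 + ∑ j, v i j else 0) +
      ∑ i ∈ Finset.range (r + 2), if b = true then 1 + ∑ j, v (t + 1 + i) j else 0 := by
    intro b
    unfold AM.sz
    have e3 : t + 1 + r + 1 + 1 = (t + 1) + (r + 2) := by omega
    rw [e3, Finset.sum_range_add]
    congr 1
    · refine Finset.sum_congr rfl fun i hi => ?_
      have hi' : i ≤ t := by
        have := Finset.mem_range.mp hi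
        omega
      rw [s0 i hi']
      cases b <;> simp
    · refine Finset.sum_congr rfl fun i hi => ?_
      rw [s1 (t + 1 + i) (by omega)]
      cases b <;> simp
  refine ⟨?_, ?_⟩
  · rw [key]
    simp only [if_true, Bool.false_eq_true, if_false, Finset.sum_const_zero, add_zero]
    rw [Finset.sum_range_succ]
  · rw [key]
    simp only [if_true, Bool.true_eq_false, if_false, Finset.sum_const_zero, zero_add]
    rw [Finset.sum_range_succ, Finset.sum_range_succ]
    have e4 : t + 1 + (r + 1) = t + 1 + r + 1 := by omega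
    rw [e4]

theorem pf_NPA (hPQ : T_PQ) (_hIR : T_IR) : T_NPA := by
  intro M B cd d n hn
  obtain ⟨T, e, v, hR, hsz, hnn⟩ := hn
  have hpos := hR.pos
  have hini : e 0 = (Ins.start : Ins M d) := hR.ini
  have hfi : e (T - 1) = (Ins.fpush : Ins M d) := hR.fi
  have hex : ∃ i, (tmA M B cd d).st (e i) = true := ⟨T - 1, by rw [hfi]; rfl⟩
  obtain ⟨t', ht', hmin⟩ : ∃ t', (tmA M B cd d).st (e t') = true ∧
      ∀ i < t', ¬ (tmA M B cd d).st (e i) = true :=
    ⟨Nat.find hex, Nat.find_spec hex, fun i hi => Nat.find_min hex hi⟩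
  have ht0 : t' ≠ 0 := by
    rintro rfl
    rw [hini] at ht'
    cases ht'
  obtain ⟨t, rfl⟩ : ∃ t, t' = t + 1 := ⟨t' - 1, by omega⟩
  have htT : t + 1 ≤ T - 1 := by
    by_contra hc
    exact hmin (T - 1) (by omega) (by rw [hfi]; rfl)
  have hmin' : ∀ i ≤ t, (tmA M B cd d).st (e i) = false := by
    intro i hi
    have := hmin i (by omega)
    revert this
    cases (tmA M B cd d).st (e i) <;> simp
  have hnt : Ins.nx (e t : Ins M d) (e (t + 1)) := hR.nx t (by omega)
  have hbeg : e t = (Ins.begB : Ins M d) :=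
    (nx_st _ _ hnt).2.1 (hmin' t le_rfl) ht'
  have hlate : ∀ i, t < i → i < T → (tmA M B cd d).st (e i) = true := by
    intro i hi
    induction i, hi using Nat.le_induction with
    | base => intro _; exact ht'
    | succ i hi ih =>
      intro hiT
      exact (nx_st _ _ (hR.nx i (by omega))).1 (ih (by omega))
  obtain ⟨hs0, hs1⟩ := sz_eq (tmA M B cd d) T e v t (by omega) hmin' hlate
  have hvT : ∑ j, v T j = 0 := Finset.sum_eq_zero fun j _ => hR.zero' j
  refine ⟨v t, v (t + 1), v (T - 1), e (t + 1), ∑ i ∈ Finset.range t, (1 + ∑ j, v i j),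
    ∑ i ∈ Finset.range (T - 1 - (t + 1)), (1 + ∑ j, v (t + 1 + i) j), ?_, ?_, ?_, ?_, ?_, ?_⟩
  · refine (hPQ _ _ _ _ _ _ _).2 ⟨t, e, v, hini, funext fun j => hR.zero j, hbeg, rfl, ?_, rfl⟩
    intro i hi
    exact ⟨hR.rel i (by omega), hR.nx i (by omega)⟩
  · have := hR.rel t (by omega)
    rwa [hbeg] at this
  · rwa [hbeg] at hnt
  · refine (hPQ _ _ _ _ _ _ _).2 ⟨T - 1 - (t + 1), fun i => e (t + 1 + i), fun i => v (t + 1 + i),
      rfl, rfl, ?_, ?_, ?_, rfl⟩
    · show e (t + 1 + (T - 1 - (t + 1))) = _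
      rw [show t + 1 + (T - 1 - (t + 1)) = T - 1 by omega]
      exact hfi
    · show v (t + 1 + (T - 1 - (t + 1))) = _
      rw [show t + 1 + (T - 1 - (t + 1)) = T - 1 by omega]
    · intro i hi
      exact ⟨hR.rel (t + 1 + i) (by omega), hR.nx (t + 1 + i) (by omega)⟩
  · rw [hs0, hs1, hvT] at hsz
    omega
  · rw [hs0, hs1, hvT] at hsz
    rw [hs0, hs1, hvT] at hnn
    omega

theorem pf_NPB (hPQ : T_PQ) (hIR : T_IR) : T_NPB := by
  intro M B cd d n hn
  obtain ⟨v, v₁, v₂, e', s₁, s₂, hp1, hr, hn0, hp2, hs, hnn⟩ := hn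
  obtain ⟨T₁, e₁, w₁, ha0, hb0, ha1, hb1, hst1, hsum1⟩ := (hPQ _ _ _ _ _ _ _).1 hp1
  obtain ⟨T₂, e₂, w₂, hc0, hd0, hc1, hd1, hst2, hsum2⟩ := (hPQ _ _ _ _ _ _ _).1 hp2
  set e : ℕ → (tmA M B cd d).I := fun i => if i ≤ T₁ then e₁ i else e₂ (i - (T₁ + 1)) with hedef
  set w : ℕ → Ct M.k d → ℕ := fun i => if i ≤ T₁ then w₁ i else
    if i ≤ T₁ + 1 + T₂ then w₂ (i - (T₁ + 1)) else fun _ => 0 with hwdef
  have eL : ∀ i ≤ T₁, e i = e₁ i := fun i hi => by simp only [hedef, if_pos hi]
  have eR : ∀ i, e (T₁ + 1 + i) = e₂ i := fun i => by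
    simp only [hedef]
    rw [if_neg (by omega), show T₁ + 1 + i - (T₁ + 1) = i by omega]
  have wL : ∀ i ≤ T₁, w i = w₁ i := fun i hi => by simp only [hwdef, if_pos hi]
  have wR : ∀ i ≤ T₂, w (T₁ + 1 + i) = w₂ i := fun i hi => by
    simp only [hwdef]
    rw [if_neg (by omega), if_pos (by omega), show T₁ + 1 + i - (T₁ + 1) = i by omega]
  have wE : w (T₁ + 1 + T₂ + 1) = fun _ => 0 := by
    simp only [hwdef]
    rw [if_neg (by omega), if_neg (by omega)]
  have hRun : (tmA M B cd d).Run (T₁ + 1 + T₂ + 1) e w := by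
    refine ⟨by omega, ?_, ?_, ?_, ?_, ?_, ?_⟩
    · show e 0 = Ins.start
      rw [eL 0 (by omega)]
      exact ha0
    · show e (T₁ + 1 + T₂ + 1 - 1) = Ins.fpush
      rw [show T₁ + 1 + T₂ + 1 - 1 = T₁ + 1 + T₂ by omega, eR]
      exact hc1
    · intro i hi
      rcases lt_trichotomy i T₁ with h | h | h
      · rw [eL i (by omega), eL (i + 1) (by omega)]
        exact (hst1 i h).2
      · subst h
        have h2 : e (i + 1) = e' := by
          have := eR 0
          rw [add_zero] at this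
          rw [this]
          exact hc0
        rw [eL i le_rfl, h2, ha1]
        exact hn0
      · obtain ⟨r, rfl⟩ : ∃ r, i = T₁ + 1 + r := ⟨i - (T₁ + 1), by omega⟩
        rw [eR r, show T₁ + 1 + r + 1 = T₁ + 1 + (r + 1) by omega, eR (r + 1)]
        exact (hst2 r (by omega)).2
    · intro i hi
      rcases lt_trichotomy i T₁ with h | h | h
      · rw [eL i (by omega), wL i (by omega), wL (i + 1) (by omega)]
        exact (hst1 i h).1
      · subst h
        have h2 : w (i + 1) = v₁ := by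
          have := wR 0 (by omega)
          rw [add_zero] at this
          rw [this]
          exact hd0
        rw [eL i le_rfl, wL i le_rfl, h2, ha1, hb1]
        exact hr
      · obtain ⟨r, rfl⟩ : ∃ r, i = T₁ + 1 + r := ⟨i - (T₁ + 1), by omega⟩
        rcases Nat.lt_or_ge r T₂ with h3 | h3
        · rw [eR r, wR r (by omega), show T₁ + 1 + r + 1 = T₁ + 1 + (r + 1) by omega,
            wR (r + 1) (by omega)]
          exact (hst2 r h3).1
        · have h4 : r = T₂ := by omega
          subst h4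
          rw [eR r, wR r le_rfl, wE, hc1]
          exact ((hIR M B cd d _ _).2.2.2.2.2.2.2).2 fun j => rfl
    · intro j
      rw [wL 0 (by omega), hb0]
    · intro j
      rw [wE]
  have hlateE : ∀ i ≤ T₂, (tmA M B cd d).st (e₂ i) = true := by
    intro i
    induction i with
    | zero =>
      intro _
      rw [hc0]
      exact (nx_st _ _ hn0).2.2 rfl
    | succ i ih =>
      intro hi
      exact (nx_st _ _ (hst2 i (by omega)).2).1 (ih (by omega))
  have hearly : ∀ i ≤ T₁, (tmA M B cd d).st (e₁ i) = false := by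
    intro i hi
    by_contra hc
    have hc' : (tmA M B cd d).st (e₁ i) = true := by
      revert hc
      cases (tmA M B cd d).st (e₁ i) <;> simp
    have : ∀ r, i + r ≤ T₁ → (tmA M B cd d).st (e₁ (i + r)) = true := by
      intro r
      induction r with
      | zero => intro _; exact hc'
      | succ r ih =>
        intro hr'
        exact (nx_st _ _ (hst1 (i + r) (by omega)).2).1 (ih (by omega))
    have h5 := this (T₁ - i) (by omega)
    rw [show i + (T₁ - i) = T₁ by omega, ha1] at h5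
    cases h5
  have h0 : ∀ i ≤ T₁, (tmA M B cd d).st (e i) = false := by
    intro i hi
    rw [eL i hi]
    exact hearly i hi
  have h1 : ∀ i, T₁ < i → i < T₁ + 1 + T₂ + 1 → (tmA M B cd d).st (e i) = true := by
    intro i hi hi2
    obtain ⟨r, rfl⟩ : ∃ r, i = T₁ + 1 + r := ⟨i - (T₁ + 1), by omega⟩
    rw [eR r]
    exact hlateE r (by omega)
  obtain ⟨hs0, hs1⟩ := sz_eq (tmA M B cd d) (T₁ + 1 + T₂ + 1) e w T₁ (by omega) h0 h1
  rw [show T₁ + 1 + T₂ + 1 - 1 - (T₁ + 1) = T₂ by omega,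
    show T₁ + 1 + T₂ + 1 - 1 = T₁ + 1 + T₂ by omega, wR T₂ le_rfl, wE, hd1] at hs1
  rw [wL T₁ le_rfl, hb1] at hs0
  have hA : ∑ i ∈ Finset.range T₁, (1 + ∑ j, w i j) = s₁ := by
    rw [hsum1]
    refine Finset.sum_congr rfl fun i hi => ?_
    rw [wL i (by have := Finset.mem_range.mp hi; omega)]
  have hB : ∑ i ∈ Finset.range T₂, (1 + ∑ j, w (T₁ + 1 + i) j) = s₂ := by
    rw [hsum2]
    refine Finset.sum_congr rfl fun i hi => ?_
    rw [wR i (by have := Finset.mem_range.mp hi; omega)]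
  rw [hA] at hs0
  rw [hB] at hs1
  simp only [Finset.sum_const_zero, add_zero] at hs1
  refine ⟨T₁ + 1 + T₂ + 1, e, w, hRun, ?_, ?_⟩
  · rw [hs0, hs1]
    exact hs
  · rw [hs0, hs1]
    omega

end Pool.Agent.H37.CH
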